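import Pool.Agent.Lib.MP_b92725_co.Defs
import Pool.Agent.Lib.MP_b92725_co.Config

/-!
# Colour classes of k-blocked point sets can have more than k points

There is a set of eighteen points in the Euclidean plane that is `5`-blocked with colour classes of
sizes `6, 3, 3, 3, 3`.  So the answer to the question whether every colour class of every
`k`-blocked set has at most `k` points is negative.
-/

namespace Pool.Agent.Results.MP_b92725_co.SixOfFive

open Pool.Agent.Lib.MP_b92725_co

/-- **The answer to Q1 is no.**  There is a `5`-blocked set of eighteen points in the Euclidean plane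
whose colour classes have sizes `6, 3, 3, 3, 3`; hence it is false that for every `k ≥ 2` every
colour class of every `k`-blocked set has at most `k` points. -/
theorem result :
    (∃ (P : Finset Plane) (c : Plane → Fin 5),
      Blocked 5 P c ∧ P.card = 18 ∧
        ∀ i : Fin 5, (P.filter (fun p => c p = i)).card = if i = 0 then 6 else 3) ∧
    ¬ (∀ k : ℕ, 2 ≤ k → ∀ (P : Finset Plane) (c : Plane → Fin k), Blocked k P c →
        ∀ i : Fin k, (P.filter (fun p => c p = i)).card ≤ k) := by
  refine ⟨example18, ?_⟩
  intro h
  obtain ⟨P, c, hb, -, h6⟩ := example18
  have h1 := h 5 (by norm_num) P c hb 0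
  have h2 := h6 0
  rw [if_pos rfl] at h2
  omega

end Pool.Agent.Results.MP_b92725_co.SixOfFive
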